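import Mathlib

namespace Pool.Agent.Results.MP_b124ce_co.Uniform

open Set

variable {S : Type}

/-- IE-operator: (cl1), (cl2), (cl3), (cl4'). -/
def IsIE (f : Set S → Set S) : Prop :=
  (∀ X, X ⊆ f X) ∧ (∀ X Y, X ⊆ Y → f X ⊆ f Y) ∧ (∀ X, f (f X) = f X) ∧
    ∀ X Y p, p ∈ f Y → p ∉ f (Y \ X) → ∃ x ∈ X, x ∈ f ((Y \ {x}) ∪ {p})

/-- Independent set. -/
def Indep (f : Set S → Set S) (X : Set S) : Prop := ∀ x ∈ X, x ∉ f (X \ {x})

/-- Spanning set. -/
def Spanning (f : Set S → Set S) (X : Set S) : Prop := f X = univ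

/-- Condition (C). -/
def CondC (f : Set S → Set S) : Prop :=
  ∀ Y p, p ∈ f Y → ∃ U, Minimal (fun U => U ⊆ Y ∧ p ∈ f U) U ∧ Indep f U

/-- Condition (H). -/
def CondH (f : Set S → Set S) : Prop :=
  ∀ Y p, p ∉ f Y → ∃ V, Maximal (fun V => Y ⊆ V ∧ p ∉ f V) V ∧ Spanning f (V ∪ {p})

/-- The restriction of `f` to `X`, an operator on the ground set `X`. -/
def restrict (f : Set S → Set S) (X : Set S) (Y : Set X) : Set X :=
  Subtype.val ⁻¹' f (Subtype.val '' Y)

def Anti (𝒜 : Set (Set S)) : Prop := ∀ A ∈ 𝒜, ∀ B ∈ 𝒜, (A \ B).Finite → A = B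

lemma exists_max (𝒢 𝒜₀ : Set (Set S)) (h0 : 𝒜₀ ⊆ 𝒢) (ha : Anti 𝒜₀) :
    ∃ 𝒜, 𝒜₀ ⊆ 𝒜 ∧ 𝒜 ⊆ 𝒢 ∧ Anti 𝒜 ∧
      ∀ Z ∈ 𝒢, ∃ A ∈ 𝒜, (A \ Z).Finite ∨ (Z \ A).Finite := by
  obtain ⟨𝒜, h1, h2⟩ := zorn_subset_nonempty {𝒜 | 𝒜 ⊆ 𝒢 ∧ Anti 𝒜} (by
    intro c hc hch _
    refine ⟨⋃₀ c, ⟨sUnion_subset fun t ht => (hc ht).1, ?_⟩, fun s hs => subset_sUnion_of_mem hs⟩
    rintro A ⟨s, hs, hA⟩ B ⟨t, ht, hB⟩ hAB
    rcases hch.total hs ht with h | h
    · exact (hc ht).2 A (h hA) B hB hAB
    · exact (hc hs).2 A hA B (h hB) hAB) 𝒜₀ ⟨h0, ha⟩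
  refine ⟨𝒜, h1, h2.prop.1, h2.prop.2, fun Z hZ => ?_⟩
  by_contra hne
  push Not at hne
  have hin : insert Z 𝒜 ∈ {𝒜 | 𝒜 ⊆ 𝒢 ∧ Anti 𝒜} := by
    refine ⟨insert_subset hZ h2.prop.1, ?_⟩
    rintro A (rfl | hA) B (rfl | hB) hAB
    · rfl
    · exact absurd hAB (hne B hB).2
    · exact absurd hAB (hne A hA).1
    · exact h2.prop.2 A hA B hB hAB
  have hZ' : Z ∈ 𝒜 := h2.le_of_ge hin (subset_insert _ _) (mem_insert _ _)
  exact (hne Z hZ').1 (by simp)

def Sp (𝒜 : Set (Set S)) (Z : Set S) : Prop :=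
  ∃ A ∈ 𝒜, (A \ Z).Finite ∧ (A \ Z).encard ≤ (Z \ A).encard

lemma Sp.mono {𝒜 : Set (Set S)} {Z Z' : Set S} (h : Sp 𝒜 Z) (hZ : Z ⊆ Z') : Sp 𝒜 Z' := by
  obtain ⟨A, hA, h1, h2⟩ := h
  refine ⟨A, hA, h1.subset (diff_subset_diff_right hZ), ?_⟩
  exact (encard_le_encard (diff_subset_diff_right hZ)).trans
    (h2.trans (encard_le_encard (diff_subset_diff_left hZ)))

lemma Sp.swap {𝒜 : Set (Set S)} {Z : Set S} (h : Sp 𝒜 Z) {x p : S} (hx : x ∈ Z) (hp : p ∉ Z) :
    Sp 𝒜 ((Z \ {x}) ∪ {p}) := by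
  obtain ⟨A, hA, h1, h2⟩ := h
  have hxp : x ≠ p := fun h => hp (h ▸ hx)
  refine ⟨A, hA, (h1.insert x).subset ?_, ?_⟩
  · intro y hy
    simp only [mem_diff, mem_union, mem_singleton_iff, mem_insert_iff] at hy ⊢
    tauto
  · by_cases hxA : x ∈ A <;> by_cases hpA : p ∈ A
    · have e1 : A \ ((Z \ {x}) ∪ {p}) = insert x ((A \ Z) \ {p}) := by
        ext y
        simp only [mem_diff, mem_union, mem_singleton_iff, mem_insert_iff]
        by_cases hyx : y = x
        · subst hyx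
          tauto
        · tauto
      have e2 : ((Z \ {x}) ∪ {p}) \ A = Z \ A := by
        ext y
        simp only [mem_diff, mem_union, mem_singleton_iff]
        constructor
        · rintro ⟨h | rfl, h'⟩
          · exact ⟨h.1, h'⟩
          · exact absurd hpA h'
        · rintro ⟨h, h'⟩
          exact ⟨Or.inl ⟨h, fun e => h' (e ▸ hxA)⟩, h'⟩
      rw [e1, e2, encard_insert_of_notMem (by simp [hx]),
        encard_diff_singleton_add_one (by exact ⟨hpA, hp⟩)]
      exact h2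
    · have e1 : A \ ((Z \ {x}) ∪ {p}) = insert x (A \ Z) := by
        ext y
        simp only [mem_diff, mem_union, mem_singleton_iff, mem_insert_iff]
        by_cases hyx : y = x
        · subst hyx
          tauto
        · by_cases hyp : y = p
          · subst hyp
            tauto
          · tauto
      have e2 : ((Z \ {x}) ∪ {p}) \ A = insert p (Z \ A) := by
        ext y
        simp only [mem_diff, mem_union, mem_singleton_iff, mem_insert_iff]
        by_cases hyx : y = x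
        · subst hyx
          tauto
        · by_cases hyp : y = p
          · subst hyp
            tauto
          · tauto
      rw [e1, e2, encard_insert_of_notMem (by simp [hx]), encard_insert_of_notMem (by simp [hp])]
      exact add_le_add_left h2 1
    · have e1 : A \ ((Z \ {x}) ∪ {p}) = (A \ Z) \ {p} := by
        ext y
        simp only [mem_diff, mem_union, mem_singleton_iff]
        by_cases hyx : y = x
        · subst hyx
          tauto
        · tauto
      have e2 : ((Z \ {x}) ∪ {p}) \ A = (Z \ A) \ {x} := by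
        ext y
        simp only [mem_diff, mem_union, mem_singleton_iff]
        by_cases hyp : y = p
        · subst hyp
          tauto
        · tauto
      rw [e1, e2]
      rw [← encard_diff_singleton_add_one (s := A \ Z) (a := p) ⟨hpA, hp⟩,
        ← encard_diff_singleton_add_one (s := Z \ A) (a := x) ⟨hx, hxA⟩] at h2
      exact (ENat.add_le_add_iff_right (by simp)).1 h2
    · have e1 : A \ ((Z \ {x}) ∪ {p}) = A \ Z := by
        ext y
        simp only [mem_diff, mem_union, mem_singleton_iff]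
        by_cases hyx : y = x
        · subst hyx
          tauto
        · by_cases hyp : y = p
          · subst hyp
            tauto
          · tauto
      have e2 : ((Z \ {x}) ∪ {p}) \ A = insert p ((Z \ A) \ {x}) := by
        ext y
        simp only [mem_diff, mem_union, mem_singleton_iff, mem_insert_iff]
        by_cases hyp : y = p
        · subst hyp
          tauto
        · tauto
      rw [e1, e2, encard_insert_of_notMem (by simp [hp]),
        encard_diff_singleton_add_one (by exact ⟨hx, hxA⟩)]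
      exact h2

lemma base_min {𝒜 : Set (Set S)} (ha : Anti 𝒜) {A B : Set S} (hA : A ∈ 𝒜)
    (h1 : (B \ A).Finite) (h2 : (B \ A).encard ≤ (A \ B).encard) {x : S} (hx : x ∈ B) :
    ¬ Sp 𝒜 (B \ {x}) := by
  rintro ⟨A', hA', h3, h4⟩
  have hAA : A' = A := by
    refine ha A' hA' A hA ((h3.union h1).subset ?_)
    intro y hy
    simp only [mem_diff, mem_union, mem_singleton_iff] at hy ⊢
    tauto
  subst hAA
  by_cases hxA : x ∈ A'
  · have e1 : A' \ (B \ {x}) = insert x (A' \ B) := by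
      ext y
      simp only [mem_diff, mem_singleton_iff, mem_insert_iff]
      by_cases hyx : y = x
      · subst hyx
        tauto
      · tauto
    have e2 : (B \ {x}) \ A' = B \ A' := by
      ext y
      simp only [mem_diff, mem_singleton_iff]
      by_cases hyx : y = x
      · subst hyx
        tauto
      · tauto
    rw [e1, e2, encard_insert_of_notMem (by simp [hx])] at h4
    have h5 : (B \ A').encard + 1 ≤ (B \ A').encard := (add_le_add_left h2 1).trans h4
    exact absurd h5 (not_le.2 (ENat.lt_add_one_iff h1.encard_lt_top.ne |>.2 le_rfl))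
  · have e1 : A' \ (B \ {x}) = A' \ B := by
      ext y
      simp only [mem_diff, mem_singleton_iff]
      by_cases hyx : y = x
      · subst hyx
        tauto
      · tauto
    have e2 : (B \ {x}) \ A' = (B \ A') \ {x} := by
      ext y
      simp only [mem_diff, mem_singleton_iff]
      tauto
    rw [e1, e2] at h4
    rw [← encard_diff_singleton_add_one (s := B \ A') (a := x) ⟨hx, hxA⟩] at h2
    have h5 := h2.trans h4
    have h6 : ((B \ A') \ {x}).Finite := h1.subset diff_subset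
    exact absurd h5 (not_le.2 (ENat.lt_add_one_iff h6.encard_lt_top.ne |>.2 le_rfl))

lemma exists_min {𝒜 : Set (Set S)} (ha : Anti 𝒜) {Z : Set S} (h : Sp 𝒜 Z) :
    ∃ U ⊆ Z, Sp 𝒜 U ∧ ∀ x ∈ U, ¬ Sp 𝒜 (U \ {x}) := by
  obtain ⟨A, hA, h1, h2⟩ := h
  obtain ⟨T, hT, hTc⟩ := exists_subset_encard_eq h2
  have e1 : A \ ((A ∩ Z) ∪ T) = A \ Z := by
    ext y
    have := @hT y
    simp only [mem_diff, mem_union, mem_inter_iff] at this ⊢
    tauto
  have e2 : ((A ∩ Z) ∪ T) \ A = T := by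
    ext y
    have := @hT y
    simp only [mem_diff, mem_union, mem_inter_iff] at this ⊢
    tauto
  have hTf : T.Finite := by
    rw [← encard_lt_top_iff, hTc]
    exact h1.encard_lt_top
  refine ⟨(A ∩ Z) ∪ T, union_subset inter_subset_right (hT.trans diff_subset),
    ⟨A, hA, by rw [e1]; exact h1, by rw [e1, e2, hTc]⟩, fun x hx => ?_⟩
  exact base_min ha hA (by rw [e2]; exact hTf) (by rw [e1, e2, hTc]) hx

lemma exists_cobase {𝒜 : Set (Set S)} (ha : Anti 𝒜)
    (hm : ∀ Z, ∃ A ∈ 𝒜, (A \ Z).Finite ∨ (Z \ A).Finite) {Z : Set S} (h : ¬ Sp 𝒜 Z)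
    {p : S} (hp : p ∉ Z) :
    ∃ B, Z ⊆ B ∧ p ∈ B ∧ Sp 𝒜 B ∧ ¬ Sp 𝒜 (B \ {p}) := by
  obtain ⟨A, hA, hAZ⟩ := hm Z
  have h1 : (Z \ A).Finite ∧ (Z \ A).encard < (A \ Z).encard := by
    by_cases hf : (A \ Z).Finite
    · have : (Z \ A).encard < (A \ Z).encard := by
        by_contra hc
        exact h ⟨A, hA, hf, not_lt.1 hc⟩
      exact ⟨encard_lt_top_iff.1 (this.trans_le le_top), this⟩
    · have hf' := hAZ.resolve_left hf
      refine ⟨hf', ?_⟩
      rw [Set.Infinite.encard_eq hf]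
      exact hf'.encard_lt_top
  have h2 : (Z \ A).encard + 1 ≤ (A \ Z).encard := Order.add_one_le_of_lt h1.2
  have h3 : (insert p Z \ A).encard ≤ (A \ insert p Z).encard := by
    by_cases hpA : p ∈ A
    · have e1 : insert p Z \ A = Z \ A := by
        ext y
        simp only [mem_diff, mem_insert_iff]
        by_cases hyp : y = p
        · subst hyp
          tauto
        · tauto
      have e2 : A \ insert p Z = (A \ Z) \ {p} := by
        ext y
        simp only [mem_diff, mem_insert_iff, mem_singleton_iff]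
        tauto
      rw [e1, e2]
      rw [← encard_diff_singleton_add_one (s := A \ Z) (a := p) ⟨hpA, hp⟩] at h2
      exact (ENat.add_le_add_iff_right (by simp)).1 h2
    · have e1 : insert p Z \ A = insert p (Z \ A) := by
        ext y
        simp only [mem_diff, mem_insert_iff]
        by_cases hyp : y = p
        · subst hyp
          tauto
        · tauto
      have e2 : A \ insert p Z = A \ Z := by
        ext y
        simp only [mem_diff, mem_insert_iff]
        by_cases hyp : y = p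
        · subst hyp
          tauto
        · tauto
      rw [e1, e2, encard_insert_of_notMem (by simp [hp])]
      exact h2
  have h4 : (insert p Z \ A).Finite := (h1.1.insert p).subset (by
    intro y hy
    simp only [mem_diff, mem_insert_iff] at hy ⊢
    tauto)
  obtain ⟨T, hT, hTc⟩ := exists_subset_encard_eq h3
  have e1 : A \ ((A \ T) ∪ insert p Z) = T := by
    ext y
    have := @hT y
    simp only [mem_diff, mem_union] at this ⊢
    tauto
  have e2 : ((A \ T) ∪ insert p Z) \ A = insert p Z \ A := by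
    ext y
    simp only [mem_diff, mem_union]
    tauto
  have hTf : T.Finite := by
    rw [← encard_lt_top_iff, hTc]
    exact h4.encard_lt_top
  refine ⟨(A \ T) ∪ insert p Z, (subset_insert _ _).trans subset_union_right,
    Or.inr (mem_insert _ _), ⟨A, hA, by rw [e1]; exact hTf, by rw [e1, e2, hTc]⟩, ?_⟩
  exact base_min ha hA (by rw [e2]; exact h4) (by rw [e1, e2, hTc]) (Or.inr (mem_insert _ _))

def op (𝒜 : Set (Set S)) (Z : Set S) : Set S := {x | x ∈ Z ∨ Sp 𝒜 Z}

lemma op_IE (𝒜 : Set (Set S)) : IsIE (op 𝒜) := by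
  refine ⟨fun X x hx => Or.inl hx, ?_, ?_, ?_⟩
  · rintro X Y h x (hx | hx)
    · exact Or.inl (h hx)
    · exact Or.inr (hx.mono h)
  · intro X
    by_cases h : Sp 𝒜 X
    · ext x
      simp [op, h]
    · have : op 𝒜 X = X := by
        ext x
        simp [op, h]
      rw [this, this]
  · intro X Y p hp hnp
    simp only [op, mem_setOf_eq, not_or] at hp hnp
    by_cases hpY : p ∈ Y
    · have hpX : p ∈ X := by
        by_contra hc
        exact hnp.1 ⟨hpY, hc⟩
      exact ⟨p, hpX, Or.inl (Or.inr rfl)⟩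
    · have hY := hp.resolve_left hpY
      have : ∃ x ∈ X, x ∈ Y := by
        by_contra hc
        push Not at hc
        exact hnp.2 (hY.mono fun y hy => ⟨hy, fun hx => hc y hx hy⟩)
      obtain ⟨x, hx, hxY⟩ := this
      exact ⟨x, hx, Or.inr (hY.swap hxY hpY)⟩

lemma op_C {𝒜 : Set (Set S)} (ha : Anti 𝒜) (h0 : ¬ Sp 𝒜 ∅) : CondC (op 𝒜) := by
  intro Y p hp
  by_cases hpY : p ∈ Y
  · refine ⟨{p}, ⟨⟨singleton_subset_iff.2 hpY, Or.inl rfl⟩, ?_⟩, ?_⟩
    · rintro U ⟨-, hU⟩ hle
      rcases hU with hU | hU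
      · exact singleton_subset_iff.2 hU
      · rcases subset_singleton_iff_eq.1 hle with rfl | rfl
        · exact absurd hU h0
        · exact le_rfl
    · rintro x rfl
      simp [op, h0]
  · have hY : Sp 𝒜 Y := Or.resolve_left hp hpY
    obtain ⟨U, hUY, hU, hmin⟩ := exists_min ha hY
    refine ⟨U, ⟨⟨hUY, Or.inr hU⟩, ?_⟩, ?_⟩
    · rintro U' ⟨hU'Y, hU'⟩ hle x hx
      by_contra hc
      have hs : Sp 𝒜 U' := Or.resolve_left hU' fun h => hpY (hU'Y h)
      exact hmin x hx (hs.mono fun y hy => ⟨hle hy, fun e => hc (by rw [← e]; exact hy)⟩)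
    · rintro x hx (h | h)
      · exact h.2 rfl
      · exact hmin x hx h

lemma op_H {𝒜 : Set (Set S)} (ha : Anti 𝒜)
    (hm : ∀ Z, ∃ A ∈ 𝒜, (A \ Z).Finite ∨ (Z \ A).Finite) : CondH (op 𝒜) := by
  intro Y p hp
  simp only [op, mem_setOf_eq, not_or] at hp
  obtain ⟨B, hYB, hpB, hB, hnB⟩ := exists_cobase ha hm hp.2 hp.1
  refine ⟨B \ {p}, ⟨⟨fun y hy => ⟨hYB hy, fun e => hp.1 (by rw [← e]; exact hy)⟩, ?_⟩, ?_⟩, ?_⟩
  · rintro (h | h)
    · exact h.2 rfl
    · exact hnB h
  · rintro V ⟨-, hV⟩ hle q hq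
    simp only [op, mem_setOf_eq, not_or] at hV
    by_contra hc
    have hqB : q ∉ B := fun h => hc ⟨h, fun e => hV.1 (by rw [← e]; exact hq)⟩
    exact hV.2 ((hB.swap hpB hqB).mono (union_subset hle (singleton_subset_iff.2 hq)))
  · have : Sp 𝒜 (B \ {p} ∪ {p}) := hB.mono fun y hy => by
      by_cases h : y = p
      · exact Or.inr h
      · exact Or.inl ⟨hy, h⟩
    ext x
    simp only [op, mem_setOf_eq, this, or_true, mem_univ]

def a0 : Set (Fin 3 × ℕ) := {x | x.1 ≠ 1}

def a1 (M : Set ℕ) : Set (Fin 3 × ℕ) := {x | (x.1 = 1 ∧ x.2 ∈ M) ∨ (x.1 = 0 ∧ x.2 ∉ M)}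

lemma inf_of (i : Fin 3) {M : Set ℕ} (hM : M.Infinite) {T : Set (Fin 3 × ℕ)}
    (h : ∀ n ∈ M, (i, n) ∈ T) : T.Infinite := by
  refine Set.Infinite.mono ?_ (hM.image (f := fun n => (i, n)) (fun a _ b _ e => by simpa using e))
  rintro _ ⟨n, hn, rfl⟩
  exact h n hn

theorem result :
    ∃ (S : Type) (f : Set S → Set S) (X : Set S),
      Countable S ∧ IsIE f ∧ CondC f ∧ CondH f ∧ ¬ CondH (restrict f X) := by
  obtain ⟨𝒜₁, h11, h12, h13, h14⟩ :=
    exists_max (insert a0 {A | ∃ M : Set ℕ, M.Infinite ∧ A = a1 M}) {a0} (by simp)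
      (by rintro A rfl B rfl _; rfl)
  obtain ⟨𝒜, h21, -, ha, hm⟩ := exists_max univ 𝒜₁ (subset_univ _) h13
  have h0 : a0 ∈ 𝒜 := h21 (h11 rfl)
  have small : ∀ V : Set (Fin 3 × ℕ), (∀ x ∈ V, x.1 ≠ 2) → {n | (1, n) ∈ V}.Finite →
      ¬ Sp 𝒜 V := by
    rintro V hV hf ⟨A, hA, h1, -⟩
    have : A = a0 := by
      refine ha A hA a0 h0 ((h1.union (hf.image fun n => ((1 : Fin 3), n))).subset ?_)
      rintro ⟨i, n⟩ ⟨hx, hx'⟩
      by_cases hv : (i, n) ∈ V
      · have hi : i = 1 := by simpa [a0] using hx'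
        subst hi
        exact Or.inr ⟨n, hv, rfl⟩
      · exact Or.inl ⟨hx, hv⟩
    subst this
    exact inf_of 2 infinite_univ (T := a0 \ V)
      (fun n _ => ⟨by simp [a0], fun h => hV _ h rfl⟩) h1
  have big : ∀ V : Set (Fin 3 × ℕ), (∀ n, (0, n) ∈ V) → {n | (1, n) ∈ V}.Infinite →
      Sp 𝒜 V := by
    intro V hV hi
    obtain ⟨A, hA, hc⟩ := h14 (a1 {n | (1, n) ∈ V}) (Or.inr ⟨_, hi, rfl⟩)
    rcases h12 hA with rfl | ⟨M, hM, rfl⟩
    · exfalso
      rcases hc with hc | hc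
      · exact inf_of 2 infinite_univ (fun n _ => by simp [a0, a1]) hc
      · exact inf_of 1 hi (fun n hn => by simpa [a0, a1] using hn) hc
    · have hf : (M \ {n | (1, n) ∈ V}).Finite := by
        by_contra hinf
        rcases hc with hc | hc
        · exact inf_of 1 hinf (fun n hn => by simpa [a1] using hn) hc
        · exact inf_of 0 hinf (fun n hn => by
            have h1 := hn.1
            have h2 := hn.2
            simp only [mem_setOf_eq] at h2
            simp [a1, h1, h2]) hc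
      refine ⟨a1 M, h21 hA, (hf.image fun n => ((1 : Fin 3), n)).subset ?_, ?_⟩
      · rintro ⟨i, n⟩ ⟨⟨hi, hn⟩ | ⟨hi, hn⟩, hv⟩
        · simp only at hi hn
          subst hi
          exact ⟨n, ⟨hn, hv⟩, rfl⟩
        · simp only at hi hn
          subst hi
          exact absurd (hV n) hv
      · rw [Set.Infinite.encard_eq (s := V \ a1 M)
          (inf_of 0 hM fun n hn => ⟨hV n, by simp [a1, hn]⟩)]
        exact le_top
  refine ⟨Fin 3 × ℕ, op 𝒜, {x | x.1 ≠ 2}, inferInstance, op_IE 𝒜,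
    op_C ha (small ∅ (by simp) (by simp)), op_H ha fun Z => hm Z trivial, fun hH => ?_⟩
  have sub : ∀ V : Set {x : Fin 3 × ℕ | x.1 ≠ 2}, ∀ x ∈ Subtype.val '' V, x.1 ≠ 2 := by
    rintro V _ ⟨y, -, rfl⟩
    exact y.2
  obtain ⟨V, ⟨⟨hYV, hpV⟩, -⟩, hsp⟩ := hH {x | x.1.1 = 0} ⟨(1, 0), by simp⟩ (by
    rintro (h | h)
    · obtain ⟨y, hy, e⟩ := h
      simp only [mem_setOf_eq] at hy e
      rw [e] at hy
      simp at hy
    · refine small _ (sub _) ?_ h
      refine finite_empty.subset ?_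
      rintro n ⟨y, hy, e⟩
      simp only [mem_setOf_eq] at hy e
      rw [e] at hy
      simp at hy)
  have hf : {n | ((1 : Fin 3), n) ∈ Subtype.val '' V}.Finite := by
    by_contra hinf
    exact hpV (Or.inr (big _ (fun n => ⟨⟨(0, n), by simp⟩, hYV rfl, rfl⟩) hinf))
  have hf' : {n | ((1 : Fin 3), n) ∈ Subtype.val '' (V ∪ {⟨(1, 0), by simp⟩})}.Finite := by
    refine (hf.insert 0).subset ?_
    rintro n ⟨y, hy | hy, e⟩
    · exact Or.inr ⟨y, hy, e⟩
    · left
      rw [mem_singleton_iff] at hy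
      rw [hy] at e
      simpa using e.symm
  have hns := small _ (sub _) hf'
  refine infinite_univ (hf'.subset fun n _ => ?_)
  have : (⟨(1, n), by simp⟩ : {x : Fin 3 × ℕ | x.1 ≠ 2}) ∈
      restrict (op 𝒜) {x | x.1 ≠ 2} (V ∪ {⟨(1, 0), by simp⟩}) := by
    rw [hsp]
    trivial
  exact Or.resolve_right this hns

end Pool.Agent.Results.MP_b124ce_co.Uniform
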